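import Mathlib

set_option autoImplicit false

open Metric Set Filter Topology

namespace Pool.Agent.Results.MP_15b8d6_gt.LambdaReconstructible

/-- `nearest X a` is the set `m(a)` of the points of `X` that realise the distance
`d(a) = infDist a X` from `a` to `X`. -/
def nearest {n : ℕ} (X : Set (EuclideanSpace ℝ (Fin n))) (a : EuclideanSpace ℝ (Fin n)) :
    Set (EuclideanSpace ℝ (Fin n)) :=
  {x | x ∈ X ∧ ‖a - x‖ = infDist a X}

/-- The medial axis `M_X`: the points `a` for which `m(a)` has more than one element. -/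
def medialAxis {n : ℕ} (X : Set (EuclideanSpace ℝ (Fin n))) :
    Set (EuclideanSpace ℝ (Fin n)) :=
  {a | (nearest X a).Nontrivial}

/-- The `lam`-medial axis `M_lam(X)`: the points `a` of the medial axis for which `m(a)` is not
contained in any closed ball of radius `lam`. -/
def lambdaMedialAxis {n : ℕ} (X : Set (EuclideanSpace ℝ (Fin n))) (lam : ℝ) :
    Set (EuclideanSpace ℝ (Fin n)) :=
  {a | a ∈ medialAxis X ∧ ∀ c : EuclideanSpace ℝ (Fin n), ¬ nearest X a ⊆ closedBall c lam}

/-- A point `p` outside `X` is `lam`-reconstructible if it lies in one of the open balls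
`B(a, d(a))` with centre `a` in the `lam`-medial axis. -/
def IsReconstructible {n : ℕ} (X : Set (EuclideanSpace ℝ (Fin n))) (lam : ℝ)
    (p : EuclideanSpace ℝ (Fin n)) : Prop :=
  p ∉ X ∧ p ∈ ⋃ a ∈ lambdaMedialAxis X lam, ball a (infDist a X)

section aux

variable {n : ℕ} {X : Set (EuclideanSpace ℝ (Fin n))}

/-- For `p` in the convex hull of `X`, `d(a)^2 - ‖a - p‖^2` is bounded above. -/
lemma exists_bound {p : EuclideanSpace ℝ (Fin n)}
    (hp : p ∈ convexHull ℝ X) :
    ∃ C : ℝ, 0 ≤ C ∧ ∀ a, (infDist a X) ^ 2 ≤ ‖a - p‖ ^ 2 + C := by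
  have key : convexHull ℝ X ⊆
      {q | ∃ C : ℝ, 0 ≤ C ∧ ∀ a, (infDist a X) ^ 2 ≤ ‖a - q‖ ^ 2 + C} := by
    apply convexHull_min
    · intro x hx
      refine ⟨0, le_refl _, fun a => ?_⟩
      have h1 : infDist a X ≤ dist a x := infDist_le_dist_of_mem hx
      rw [dist_eq_norm] at h1
      have h2 : 0 ≤ infDist a X := infDist_nonneg
      have := pow_le_pow_left₀ h2 h1 2
      linarith
    · intro q₁ hq₁ q₂ hq₂ s t hs ht hst
      obtain ⟨C₁, hC₁, h₁⟩ := hq₁
      obtain ⟨C₂, hC₂, h₂⟩ := hq₂
      refine ⟨s * C₁ + t * C₂ + s * t * ‖q₁ - q₂‖ ^ 2, by positivity, fun a => ?_⟩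
      have e : ‖a - (s • q₁ + t • q₂)‖ ^ 2 =
          s * ‖a - q₁‖ ^ 2 + t * ‖a - q₂‖ ^ 2 - s * t * ‖q₁ - q₂‖ ^ 2 := by
        have ht' : t = 1 - s := by linarith
        subst ht'
        have e1 : a - (s • q₁ + (1 - s) • q₂) = s • (a - q₁) + (1 - s) • (a - q₂) := by
          simp only [smul_sub, sub_smul, one_smul]
          abel
        have e2 : q₁ - q₂ = (a - q₂) - (a - q₁) := by abel
        rw [e1, e2]
        generalize a - q₁ = u
        generalize a - q₂ = w
        rw [norm_add_sq_real, norm_sub_sq_real, norm_smul, norm_smul, inner_smul_left,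
          inner_smul_right, real_inner_comm u w]
        simp only [Real.norm_eq_abs, mul_pow, sq_abs, RCLike.conj_to_real]
        ring
      have g1 := mul_le_mul_of_nonneg_left (h₁ a) hs
      have g2 := mul_le_mul_of_nonneg_left (h₂ a) ht
      have g3 : (infDist a X) ^ 2 = s * (infDist a X) ^ 2 + t * (infDist a X) ^ 2 := by
        rw [← add_mul, hst, one_mul]
      rw [e, g3]
      linarith
  exact key hp

/-- The penalised function `d(a)^2 - (1 + e) ‖a - p‖^2`. -/
noncomputable def pen (X : Set (EuclideanSpace ℝ (Fin n))) (p : EuclideanSpace ℝ (Fin n)) (e : ℝ)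
    (a : EuclideanSpace ℝ (Fin n)) : ℝ :=
  (infDist a X) ^ 2 - (1 + e) * ‖a - p‖ ^ 2

lemma continuous_pen (p : EuclideanSpace ℝ (Fin n)) (e : ℝ) : Continuous (pen X p e) := by
  unfold pen
  have := continuous_infDist_pt X
  fun_prop

/-- The penalised function attains its maximum. -/
lemma exists_max {p : EuclideanSpace ℝ (Fin n)} {C e : ℝ} (he : 0 < e) (hC : 0 ≤ C)
    (hb : ∀ a, (infDist a X) ^ 2 ≤ ‖a - p‖ ^ 2 + C) :
    ∃ a, ∀ b, pen X p e b ≤ pen X p e a := by
  obtain ⟨R, hR0, hR⟩ : ∃ R : ℝ, 0 ≤ R ∧ C ≤ e * R ^ 2 := by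
    refine ⟨Real.sqrt (C / e), Real.sqrt_nonneg _, ?_⟩
    rw [Real.sq_sqrt (by positivity)]
    rw [mul_div_cancel₀ _ (ne_of_gt he)]
  have hcomp : IsCompact (closedBall p R) := isCompact_closedBall p R
  obtain ⟨a, ha, hmax⟩ := hcomp.exists_isMaxOn ⟨p, mem_closedBall_self hR0⟩
    (continuous_pen (X := X) p e).continuousOn
  refine ⟨a, fun b => ?_⟩
  by_cases hbR : b ∈ closedBall p R
  · exact hmax hbR
  · have hp : pen X p e p ≤ pen X p e a := hmax (mem_closedBall_self hR0)
    have h0 : 0 ≤ pen X p e p := by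
      unfold pen
      simp only [sub_self, norm_zero]
      have : 0 ≤ (infDist p X) ^ 2 := by positivity
      nlinarith
    have h1 : R < ‖b - p‖ := by
      rw [mem_closedBall, dist_eq_norm, not_le] at hbR
      exact hbR
    have h2 : R ^ 2 ≤ ‖b - p‖ ^ 2 := pow_le_pow_left₀ hR0 h1.le 2
    have h3 : pen X p e b ≤ 0 := by
      unfold pen
      have := hb b
      nlinarith
    linarith

/-- First order condition at a maximum: no direction strictly separates
`p - e (a - p)` from `m(a)`. -/
lemma no_separation (hne : X.Nonempty) (hX : IsClosed X) {p a v : EuclideanSpace ℝ (Fin n)}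
    {e : ℝ} (hmax : ∀ b, pen X p e b ≤ pen X p e a) :
    ∃ y ∈ nearest X a, inner ℝ (p - e • (a - p) - y) v ≤ 0 := by
  -- the points `a + t v` and their nearest points
  let t : ℕ → ℝ := fun k => 1 / ((k : ℝ) + 1)
  have ht0 : ∀ k, 0 < t k := fun k => by positivity
  have ht1 : ∀ k, t k ≤ 1 := fun k => by
    have : (0 : ℝ) ≤ k := Nat.cast_nonneg k
    show 1 / ((k : ℝ) + 1) ≤ 1
    rw [div_le_one (by positivity)]
    linarith
  have htlim : Tendsto t atTop (𝓝 0) := tendsto_one_div_add_atTop_nhds_zero_nat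
  have hex : ∀ k, ∃ y ∈ X, infDist (a + t k • v) X = dist (a + t k • v) y := fun k =>
    hX.exists_infDist_eq_dist hne _
  choose y hyX hy using hex
  -- boundedness
  have hbd : ∀ k, y k ∈ closedBall a (infDist a X + 2 * ‖v‖) := by
    intro k
    rw [mem_closedBall]
    have h1 : dist (y k) a ≤ dist (y k) (a + t k • v) + dist (a + t k • v) a :=
      dist_triangle _ _ _
    have h2 : dist (a + t k • v) a = t k * ‖v‖ := by
      rw [dist_eq_norm, add_sub_cancel_left, norm_smul, Real.norm_of_nonneg (ht0 k).le]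
    have h3 : dist (y k) (a + t k • v) = infDist (a + t k • v) X := by
      rw [hy k, dist_comm]
    have h4 : infDist (a + t k • v) X ≤ infDist a X + dist (a + t k • v) a :=
      infDist_le_infDist_add_dist
    have h5 : t k * ‖v‖ ≤ ‖v‖ := by
      have := mul_le_mul_of_nonneg_right (ht1 k) (norm_nonneg v)
      linarith
    rw [h3] at h1
    rw [h2] at h1 h4
    linarith
  obtain ⟨z, -, φ, hφ, hlim⟩ :=
    (isCompact_closedBall a (infDist a X + 2 * ‖v‖)).tendsto_subseq hbd
  have htφ : Tendsto (fun k => t (φ k)) atTop (𝓝 0) := htlim.comp hφ.tendsto_atTop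
  have hlim' : Tendsto (fun k => y (φ k)) atTop (𝓝 z) := hlim
  have hzX : z ∈ X := hX.mem_of_tendsto hlim' (Eventually.of_forall fun k => hyX (φ k))
  have haφ : Tendsto (fun k => a + t (φ k) • v) atTop (𝓝 a) := by
    have h := (htφ.smul_const v).const_add a
    simpa using h
  have hz : infDist a X = dist a z := by
    have h1 : Tendsto (fun k => infDist (a + t (φ k) • v) X) atTop (𝓝 (infDist a X)) :=
      ((continuous_infDist_pt X).tendsto a).comp haφ
    have h2 : Tendsto (fun k => dist (a + t (φ k) • v) (y (φ k))) atTop (𝓝 (dist a z)) :=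
      haφ.dist hlim'
    have h3 : (fun k => infDist (a + t (φ k) • v) X) =
        fun k => dist (a + t (φ k) • v) (y (φ k)) := by
      funext k
      exact hy (φ k)
    rw [h3] at h1
    exact tendsto_nhds_unique h1 h2
  refine ⟨z, ⟨hzX, by rw [hz, dist_eq_norm]⟩, ?_⟩
  -- the inequality along the sequence
  have hineq : ∀ k, 2 * inner ℝ (p - e • (a - p) - y k) v ≤ e * t k * ‖v‖ ^ 2 := by
    intro k
    have hm := hmax (a + t k • v)
    unfold pen at hm
    have h1 : infDist (a + t k • v) X = ‖a + t k • v - y k‖ := by rw [hy k, dist_eq_norm]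
    have h2 : infDist a X ≤ ‖a - y k‖ := by
      have := infDist_le_dist_of_mem (x := a) (hyX k)
      rwa [dist_eq_norm] at this
    have h2' : (infDist a X) ^ 2 ≤ ‖a - y k‖ ^ 2 := pow_le_pow_left₀ infDist_nonneg h2 2
    rw [h1] at hm
    have e1 : a + t k • v - y k = (a - y k) + t k • v := by abel
    have e2 : a + t k • v - p = (a - p) + t k • v := by abel
    rw [e1, e2, norm_add_sq_real, norm_add_sq_real, inner_smul_right, inner_smul_right,
      norm_smul, Real.norm_of_nonneg (ht0 k).le, mul_pow] at hm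
    have h3 : t k * (2 * inner ℝ (p - e • (a - p) - y k) v - e * t k * ‖v‖ ^ 2) ≤ 0 := by
      have e3 : p - e • (a - p) - y k = (a - y k) - (1 + e) • (a - p) := by
        rw [add_smul, one_smul]
        abel
      rw [e3, inner_sub_left, inner_smul_left]
      simp only [RCLike.conj_to_real]
      nlinarith
    have h4 : 2 * inner ℝ (p - e • (a - p) - y k) v - e * t k * ‖v‖ ^ 2 ≤ 0 := by
      by_contra hcon
      push Not at hcon
      have := mul_pos (ht0 k) hcon
      linarith
    linarith
  have hL : Tendsto (fun k => 2 * inner ℝ (p - e • (a - p) - y (φ k)) v) atTop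
      (𝓝 (2 * inner ℝ (p - e • (a - p) - z) v)) := by
    have h1 : Tendsto (fun k => p - e • (a - p) - y (φ k)) atTop
        (𝓝 (p - e • (a - p) - z)) := hlim'.const_sub _
    exact (h1.inner tendsto_const_nhds).const_mul 2
  have hR : Tendsto (fun k => e * t (φ k) * ‖v‖ ^ 2) atTop (𝓝 0) := by
    have h := (htφ.const_mul e).mul_const (‖v‖ ^ 2)
    simpa using h
  have := le_of_tendsto_of_tendsto' hL hR (fun k => hineq (φ k))
  linarith

end aux

/-- **Answer to the question.** Every point `p` of the convex hull of a nonempty closed set `X`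
in Euclidean space with `d(p) > lam ≥ 0` is `lam`-reconstructible. -/
theorem result :
    ∀ (n : ℕ) (X : Set (EuclideanSpace ℝ (Fin n))), X.Nonempty → IsClosed X →
      ∀ lam : ℝ, 0 ≤ lam → ∀ p ∈ convexHull ℝ X, lam < infDist p X →
        IsReconstructible X lam p := by
  intro n X hne hX lam hlam p hp hd
  have hpX : p ∉ X := by
    intro h
    have := infDist_zero_of_mem h
    linarith
  refine ⟨hpX, ?_⟩
  obtain ⟨C, hC0, hC⟩ := exists_bound hp
  set δ := infDist p X with hδ
  -- the penalisation parameter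
  set r := δ - lam with hr
  have hr0 : 0 < r := by rw [hr]; linarith
  set e := r ^ 2 / (C + 1) with he
  have he0 : 0 < e := by rw [he]; positivity
  have heC : e * (C + 1) = r ^ 2 := by
    rw [he]
    field_simp
  obtain ⟨a, ha⟩ := exists_max he0 hC0 hC
  have hap := ha p
  have hpp : pen X p e p = δ ^ 2 := by
    unfold pen
    simp [hδ]
  have hval : δ ^ 2 + (1 + e) * ‖a - p‖ ^ 2 ≤ (infDist a X) ^ 2 := by
    rw [hpp] at hap
    unfold pen at hap
    linarith
  have hδ0 : 0 < δ := by linarith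
  -- `p` is in the open ball
  have hball : ‖a - p‖ < infDist a X := by
    apply lt_of_pow_lt_pow_left₀ 2 infDist_nonneg
    have h1 : 0 < δ ^ 2 := by positivity
    have h2 : 0 ≤ e * ‖a - p‖ ^ 2 := by positivity
    nlinarith
  -- the perturbed point is still far from `X`
  have hnear : e * ‖a - p‖ < r := by
    apply lt_of_pow_lt_pow_left₀ 2 hr0.le
    have h1 : e * ‖a - p‖ ^ 2 ≤ C := by
      have := hC a
      have h3 : 0 < δ ^ 2 := by positivity
      linarith
    calc (e * ‖a - p‖) ^ 2 = e * (e * ‖a - p‖ ^ 2) := by ring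
      _ ≤ e * C := mul_le_mul_of_nonneg_left h1 he0.le
      _ < e * (C + 1) := by nlinarith
      _ = r ^ 2 := heC
  have hfar : ∀ y ∈ X, lam < ‖p - e • (a - p) - y‖ := by
    intro y hy
    have h1 : δ ≤ ‖p - y‖ := by
      have := infDist_le_dist_of_mem (x := p) hy
      rwa [dist_eq_norm] at this
    have h2 : ‖p - y‖ ≤ ‖p - e • (a - p) - y‖ + ‖e • (a - p)‖ := by
      have : p - y = (p - e • (a - p) - y) + e • (a - p) := by abel
      calc ‖p - y‖ = ‖(p - e • (a - p) - y) + e • (a - p)‖ := by rw [← this]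
        _ ≤ _ := norm_add_le _ _
    rw [norm_smul, Real.norm_of_nonneg he0.le] at h2
    rw [hr] at hnear
    linarith
  -- `m(a)` is in no closed ball of radius `lam`
  have hnot : ∀ c : EuclideanSpace ℝ (Fin n), ¬ nearest X a ⊆ closedBall c lam := by
    intro c hc
    obtain ⟨y, hy, hin⟩ := no_separation (v := p - e • (a - p) - c) hne hX ha
    have h1 : ‖y - c‖ ≤ lam := by
      have := hc hy
      rwa [mem_closedBall, dist_eq_norm] at this
    have h2 := hfar y hy.1
    set q := p - e • (a - p) with hq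
    have e1 : y - c = (q - c) - (q - y) := by abel
    rw [e1] at h1
    have h3 : ‖(q - c) - (q - y)‖ ^ 2 ≤ lam ^ 2 := pow_le_pow_left₀ (norm_nonneg _) h1 2
    rw [norm_sub_sq_real, real_inner_comm] at h3
    have h4 : lam ^ 2 < ‖q - y‖ ^ 2 := pow_lt_pow_left₀ h2 hlam two_ne_zero
    have h5 : 0 ≤ ‖q - c‖ ^ 2 := by positivity
    linarith
  have hmed : a ∈ medialAxis X := by
    by_contra hcon
    have hsub : (nearest X a).Subsingleton := Set.not_nontrivial_iff.mp hcon
    obtain ⟨y, hyX, hy⟩ := hX.exists_infDist_eq_dist hne a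
    have hyn : y ∈ nearest X a := ⟨hyX, by rw [hy, dist_eq_norm]⟩
    apply hnot y
    intro x hx
    rw [hsub hx hyn]
    exact mem_closedBall_self hlam
  simp only [mem_iUnion, exists_prop]
  refine ⟨a, ⟨hmed, hnot⟩, ?_⟩
  rw [mem_ball, dist_comm, dist_eq_norm]
  exact hball

end Pool.Agent.Results.MP_15b8d6_gt.LambdaReconstructible
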